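import Mathlib

/-!
# Symmetric matrices over a finite field with all two by two minors nonzero
-/

set_option autoImplicit false

namespace Pool.Agent.R524.AO

open Finset

variable {F I : Type} [Field F] [Fintype F] [DecidableEq F] [Fintype I] [DecidableEq I]

/-- the product of the nonzero elements of a finite field is `-1` -/
theorem prod_nonzero : ∏ x ∈ (univ : Finset F).erase 0, x = -1 := by
  have h1 := FiniteField.prod_univ_units_id_eq_neg_one (K := F)
  have h2 : (∏ x : Fˣ, (x : F)) = -1 := by
    have := congrArg (fun u : Fˣ => (u : F)) h1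
    simpa using this
  rw [← h2]
  symm
  refine Finset.prod_bij (fun (x : Fˣ) _ => (x : F)) ?_ ?_ ?_ ?_
  · intro x _
    simp
  · intro x _ y _ h
    exact Units.ext h
  · intro x hx
    rw [mem_erase] at hx
    exact ⟨Units.mk0 x hx.1, mem_univ _, rfl⟩
  · intro x _
    rfl

/-- a set of size one less than that of an ambient set misses exactly one element -/
theorem miss {α : Type} [DecidableEq α] {S T : Finset α} (hST : S ⊆ T) (hc : S.card + 1 = T.card) :
    ∃ e ∈ T, S = T.erase e := by
  have h1 : (T \ S).card = 1 := by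
    rw [card_sdiff_of_subset hST]
    omega
  obtain ⟨e, he⟩ := card_eq_one.1 h1
  have heT : e ∈ T \ S := by rw [he]; exact mem_singleton_self e
  rw [mem_sdiff] at heT
  refine ⟨e, heT.1, ?_⟩
  ext x
  rw [mem_erase]
  constructor
  · intro hx
    refine ⟨?_, hST hx⟩
    rintro rfl
    exact heT.2 hx
  · rintro ⟨hxe, hx⟩
    by_contra hxS
    have : x ∈ T \ S := mem_sdiff.2 ⟨hx, hxS⟩
    rw [he, mem_singleton] at this
    exact hxe this

/-- the data of the matrix without its first row and column -/
structure Good (m : I → I → F) : Prop where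
  card : Fintype.card I + 1 = Fintype.card F
  symm : ∀ i j, m i j = m j i
  row : ∀ i j j', j ≠ j' → m i j ≠ m i j'
  det : ∀ i i' j j', i ≠ i' → j ≠ j' → m i j * m i' j' ≠ m i j' * m i' j

variable {m : I → I → F}

theorem Good.row_image (h : Good m) (i : I) :
    ∃ e : F, univ.image (m i) = (univ : Finset F).erase e := by
  have hc : (univ.image (m i)).card + 1 = (univ : Finset F).card := by
    rw [card_image_of_injective _ (fun j j' hjj => by
      by_contra hne
      exact h.row i j j' hne hjj), card_univ, card_univ, h.card]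
  obtain ⟨e, -, he⟩ := miss (subset_univ _) hc
  exact ⟨e, he⟩

theorem Good.inj (h : Good m) (i : I) : Function.Injective (m i) := fun j j' hjj => by
  by_contra hne
  exact h.row i j j' hne hjj

/-- the missing value of the row `i` -/
noncomputable def miss_val (h : Good m) (i : I) : F := (h.row_image i).choose

theorem image_row (h : Good m) (i : I) : univ.image (m i) = (univ : Finset F).erase (miss_val h i) :=
  (h.row_image i).choose_spec

theorem miss_ne (h : Good m) (i j : I) : m i j ≠ miss_val h i := by
  have h1 : m i j ∈ univ.image (m i) := mem_image_of_mem _ (mem_univ j)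
  rw [image_row h, mem_erase] at h1
  exact h1.1

theorem exists_of_ne (h : Good m) (i : I) {x : F} (hx : x ≠ miss_val h i) : ∃ j, m i j = x := by
  have h1 : x ∈ univ.image (m i) := by
    rw [image_row h, mem_erase]
    exact ⟨hx, mem_univ _⟩
  obtain ⟨j, -, hj⟩ := mem_image.1 h1
  exact ⟨j, hj⟩

/-- the product of a row with a zero at `i₀` and the missing value -/
theorem prod_row (h : Good m) {i i₀ : I} (h0 : m i i₀ = 0) :
    (∏ j ∈ univ.erase i₀, m i j) * miss_val h i = -1 := by
  have he : miss_val h i ≠ 0 := fun hh => miss_ne h i i₀ (by rw [h0, hh])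
  rw [← prod_nonzero (F := F), ← mul_prod_erase (univ.erase (0 : F)) (fun x => x)
    (mem_erase.2 ⟨he, mem_univ _⟩), mul_comm]
  congr 1
  rw [← Finset.prod_image (s := univ.erase i₀) (g := m i) (f := fun x => x)
    (fun j _ j' _ hjj => h.inj i hjj)]
  congr 1
  ext x
  rw [mem_image, mem_erase, mem_erase]
  constructor
  · rintro ⟨j, hj, rfl⟩
    rw [mem_erase] at hj
    refine ⟨miss_ne h i j, ?_, mem_univ _⟩
    rw [← h0]
    exact h.row i j i₀ hj.1
  · rintro ⟨hx, hx0, -⟩
    obtain ⟨j, hj⟩ := exists_of_ne h i hx
    refine ⟨j, ?_, hj⟩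
    rw [mem_erase]
    refine ⟨?_, mem_univ _⟩
    rintro rfl
    exact hx0 (by rw [← hj, h0])

/-- type `p - 1`: rows with a zero on the diagonal, against a row without zeros -/
theorem no_zero_row (h : Good m) {i k : I} (hik : i ≠ k) (h0 : m i i = 0) (hk : ∀ j, m k j ≠ 0) :
    miss_val h i = - m k i := by
  have hcol : ∀ j, m i j ≠ m k j := fun j => by
    rw [h.symm i j, h.symm k j]
    exact h.row j i k hik
  -- ratios
  have himg : (univ.erase i).image (fun j => m i j / m k j) ⊆ ((univ : Finset F).erase 0).erase 1 := by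
    intro x hx
    obtain ⟨j, hj, rfl⟩ := mem_image.1 hx
    rw [mem_erase] at hj
    rw [mem_erase, mem_erase]
    refine ⟨?_, ?_, mem_univ _⟩
    · rw [Ne, div_eq_one_iff_eq (hk j)]
      exact hcol j
    · refine div_ne_zero ?_ (hk j)
      rw [← h0]
      exact h.row i j i hj.1
  have hinj : Set.InjOn (fun j => m i j / m k j) ((univ.erase i : Finset I) : Set I) := by
    intro j hj j' hj' hjj
    by_contra hne
    simp only at hjj
    rw [div_eq_div_iff (hk j) (hk j')] at hjj
    exact h.det i k j j' hik hne hjj
  have hcard : ((univ.erase i).image (fun j => m i j / m k j)).card =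
      (((univ : Finset F).erase 0).erase 1).card := by
    rw [card_image_of_injOn hinj, card_erase_of_mem (mem_univ _), card_erase_of_mem
      (mem_erase.2 ⟨one_ne_zero, mem_univ _⟩), card_erase_of_mem (mem_univ _), card_univ, card_univ,
      ← h.card]
    omega
  have heq := eq_of_subset_of_card_le himg hcard.ge
  have hprod : ∏ j ∈ univ.erase i, (m i j / m k j) = -1 := by
    rw [← prod_nonzero (F := F), ← mul_prod_erase (univ.erase (0 : F)) (fun x => x)
      (mem_erase.2 ⟨one_ne_zero, mem_univ _⟩), one_mul, ← heq, Finset.prod_image hinj]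
  have h1 := prod_row h h0
  have hk2 : (∏ j ∈ univ.erase i, m k j) * m k i = -1 := by
    rw [mul_comm, mul_prod_erase univ (fun j => m k j) (mem_univ i), ← prod_nonzero (F := F)]
    have himk : univ.image (m k) = (univ : Finset F).erase 0 := by
      rw [image_row h k]
      have : miss_val h k = 0 := by
        by_contra hne
        obtain ⟨j, hj⟩ := exists_of_ne h k (x := 0) (Ne.symm hne)
        exact hk j hj
      rw [this]
    rw [← himk, Finset.prod_image (fun j _ j' _ hjj => h.inj k hjj)]
  rw [prod_div_distrib] at hprod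
  have hA : (∏ j ∈ univ.erase i, m k j) ≠ 0 := by
    intro hh
    rw [hh, zero_mul] at hk2
    exact one_ne_zero (neg_eq_zero.1 hk2.symm)
  rw [div_eq_iff hA] at hprod
  rw [hprod] at h1
  -- h1 : (-1 * A) * e = -1, hk2 : A * m k i = -1
  have h2 : (∏ j ∈ univ.erase i, m k j) * (miss_val h i + m k i) = 0 := by
    linear_combination -h1 + hk2
  rcases mul_eq_zero.1 h2 with h3 | h3
  · exact absurd h3 hA
  · exact eq_neg_of_add_eq_zero_left h3

/-- the missing ratio of two rows with zeros on the diagonal -/
theorem ratio (h : Good m) {i k : I} (hik : i ≠ k) (h0 : m i i = 0) (hk0 : m k k = 0) :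
    -(miss_val h i / miss_val h k) ≠ 1 ∧
    ((univ.erase i).erase k).image (fun j => m i j / m k j) =
      (((univ : Finset F).erase 0).erase 1).erase (-(miss_val h i / miss_val h k)) := by
  have hcol : ∀ j, m i j ≠ m k j := fun j => by
    rw [h.symm i j, h.symm k j]
    exact h.row j i k hik
  have hi : ∀ j, j ≠ i → m i j ≠ 0 := fun j hj => by
    rw [← h0]
    exact h.row i j i hj
  have hk : ∀ j, j ≠ k → m k j ≠ 0 := fun j hj => by
    rw [← hk0]
    exact h.row k j k hj
  have hei : miss_val h i ≠ 0 := fun hh => miss_ne h i i (by rw [h0, hh])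
  have hek : miss_val h k ≠ 0 := fun hh => miss_ne h k k (by rw [hk0, hh])
  have himg : ((univ.erase i).erase k).image (fun j => m i j / m k j) ⊆
      ((univ : Finset F).erase 0).erase 1 := by
    intro x hx
    obtain ⟨j, hj, rfl⟩ := mem_image.1 hx
    rw [mem_erase, mem_erase] at hj
    rw [mem_erase, mem_erase]
    refine ⟨?_, div_ne_zero (hi j hj.2.1) (hk j hj.1), mem_univ _⟩
    rw [Ne, div_eq_one_iff_eq (hk j hj.1)]
    exact hcol j
  have hinj : Set.InjOn (fun j => m i j / m k j) (((univ.erase i).erase k : Finset I) : Set I) := by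
    intro j hj j' hj' hjj
    rw [mem_coe, mem_erase, mem_erase] at hj hj'
    by_contra hne
    simp only at hjj
    rw [div_eq_div_iff (hk j hj.1) (hk j' hj'.1)] at hjj
    exact h.det i k j j' hik hne hjj
  have hmemk : k ∈ univ.erase i := mem_erase.2 ⟨Ne.symm hik, mem_univ _⟩
  have hmemi : i ∈ univ.erase k := mem_erase.2 ⟨hik, mem_univ _⟩
  have hcI : 2 ≤ Fintype.card I := by
    have : ({i, k} : Finset I).card ≤ (univ : Finset I).card := card_le_card (subset_univ _)
    rw [card_pair hik, card_univ] at this
    exact this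
  have hcard : (((univ.erase i).erase k).image (fun j => m i j / m k j)).card + 1 =
      (((univ : Finset F).erase 0).erase 1).card := by
    rw [card_image_of_injOn hinj, card_erase_of_mem hmemk, card_erase_of_mem (mem_univ _),
      card_erase_of_mem (mem_erase.2 ⟨one_ne_zero, mem_univ _⟩), card_erase_of_mem (mem_univ _),
      card_univ, card_univ, ← h.card]
    omega
  obtain ⟨c, hcT, hc⟩ := miss himg hcard
  have hprod : c * ∏ j ∈ (univ.erase i).erase k, (m i j / m k j) = -1 := by
    rw [← prod_nonzero (F := F), ← mul_prod_erase (univ.erase (0 : F)) (fun x => x)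
      (mem_erase.2 ⟨one_ne_zero, mem_univ _⟩), one_mul, ← mul_prod_erase _ (fun x => x) hcT, ← hc,
      Finset.prod_image hinj]
  have h1 := prod_row h h0
  have h2 := prod_row h hk0
  rw [← mul_prod_erase (univ.erase i) (fun j => m i j) hmemk] at h1
  rw [← mul_prod_erase (univ.erase k) (fun j => m k j) hmemi, erase_right_comm] at h2
  rw [prod_div_distrib] at hprod
  set A := ∏ j ∈ (univ.erase i).erase k, m i j with hA
  set B := ∏ j ∈ (univ.erase i).erase k, m k j with hB
  have hB0 : B ≠ 0 := by
    intro hh
    rw [hh, mul_zero, zero_mul] at h2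
    exact one_ne_zero (neg_eq_zero.1 h2.symm)
  have hA0 : A ≠ 0 := by
    intro hh
    rw [hh, mul_zero, zero_mul] at h1
    exact one_ne_zero (neg_eq_zero.1 h1.symm)
  have hmik : m i k ≠ 0 := hi k (Ne.symm hik)
  rw [h.symm k i] at h2
  have hcv : c = -(miss_val h i / miss_val h k) := by
    have h3 : A * miss_val h i = B * miss_val h k := by
      have h4 : m i k * (A * miss_val h i - B * miss_val h k) = 0 := by
        linear_combination h1 - h2
      rcases mul_eq_zero.1 h4 with h5 | h5
      · exact absurd h5 hmik
      · exact sub_eq_zero.1 h5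
    rw [mul_div_assoc', div_eq_iff hB0] at hprod
    -- hprod : c * A = -1 * B
    rw [eq_neg_iff_add_eq_zero, add_div_eq_mul_add_div _ _ hek, div_eq_zero_iff]
    left
    have h6 : A * (c * miss_val h k + miss_val h i) = 0 := by
      linear_combination (miss_val h k) * hprod + h3
    rcases mul_eq_zero.1 h6 with h7 | h7
    · exact absurd h7 hA0
    · exact h7
  rw [← hcv]
  rw [mem_erase] at hcT
  exact ⟨hcT.1, hc⟩

end Pool.Agent.R524.AO
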