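import Mathlib

/-!
# There is no odd function with values `±1` and perfect autocorrelation on the units of a field
-/

set_option autoImplicit false

namespace Pool.Agent.R524.AO

open Finset

theorem sign_sum (f : ℕ → ℤ) (hf : ∀ i, f i = 1 ∨ f i = -1) (n : ℕ) :
    ∃ k : ℕ, ∑ i ∈ range n, f i = n - 2 * k ∧ ∏ i ∈ range n, f i = (-1) ^ k := by
  induction n with
  | zero => exact ⟨0, by simp, by simp⟩
  | succ n ih =>
    obtain ⟨k, h1, h2⟩ := ih
    rcases hf n with h | h
    · refine ⟨k, ?_, ?_⟩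
      · rw [sum_range_succ, h1, h]
        push_cast
        ring
      · rw [prod_range_succ, h2, h, mul_one]
    · refine ⟨k + 1, ?_, ?_⟩
      · rw [sum_range_succ, h1, h]
        push_cast
        ring
      · rw [prod_range_succ, h2, h, pow_succ]

theorem no_nega (β : ℕ → ℤ) (hβ : ∀ i, β i = 1 ∨ β i = -1) (n : ℕ) (hn : ∀ i, β (i + n) = -β i)
    (h1 : ∑ i ∈ range n, β i * β (i + 1) = 0) (h2 : ∑ i ∈ range n, β i * β (i + 2) = 0) : False := by
  have hsq : ∀ i, β i * β i = 1 := fun i => by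
    rcases hβ i with h | h <;> rw [h] <;> norm_num
  have hpm : ∀ i j, β i * β j = 1 ∨ β i * β j = -1 := fun i j => by
    rcases hβ i with h | h <;> rcases hβ j with h' | h' <;> rw [h, h'] <;> norm_num
  have p1 : ∀ k, ∏ i ∈ range k, (β i * β (i + 1)) = β 0 * β k := by
    intro k
    induction k with
    | zero => rw [prod_range_zero, hsq]
    | succ k ih =>
      rw [prod_range_succ, ih]
      linear_combination (β 0 * β (k + 1)) * hsq k
  have p2 : ∀ k, ∏ i ∈ range k, (β i * β (i + 2)) = β 0 * β 1 * (β k * β (k + 1)) := by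
    intro k
    induction k with
    | zero =>
      rw [prod_range_zero]
      linear_combination (-1) * (β 1 * β 1) * hsq 0 - hsq 1
    | succ k ih =>
      rw [prod_range_succ, ih]
      linear_combination (β 0 * β 1 * β (k + 1) * β (k + 2)) * hsq k
  obtain ⟨k, hk1, hk2⟩ := sign_sum (fun i => β i * β (i + 1)) (fun i => hpm _ _) n
  obtain ⟨k', hk1', hk2'⟩ := sign_sum (fun i => β i * β (i + 2)) (fun i => hpm _ _) n
  rw [h1] at hk1
  rw [h2] at hk1'
  have hkk : k = k' := by omega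
  rw [p1 n] at hk2
  rw [p2 n] at hk2'
  have e0 : β n = -β 0 := by
    have := hn 0
    rwa [zero_add] at this
  have e1 : β (n + 1) = -β 1 := by
    have := hn 1
    rwa [add_comm 1 n] at this
  rw [e0] at hk2 hk2'
  rw [e1] at hk2'
  have f1 : (-1 : ℤ) ^ k = -1 := by
    rw [← hk2]
    linear_combination (-1) * hsq 0
  have f2 : (-1 : ℤ) ^ k' = 1 := by
    rw [← hk2']
    linear_combination (β 1 * β 1) * hsq 0 + hsq 1
  rw [hkk, f2] at f1
  norm_num at f1

variable {F : Type} [Field F] [Fintype F] [DecidableEq F]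

theorem no_odd (b : Fˣ → ℤ) (hb : ∀ x, b x = 1 ∨ b x = -1) (hodd : ∀ x, b (-x) = -b x)
    (hN : 6 ≤ Fintype.card Fˣ)
    (hR : ∀ z : Fˣ, z ≠ 1 → z ≠ -1 → ∑ x, b (z * x) * b x = 0) : False := by
  obtain ⟨g, hg⟩ := IsCyclic.exists_generator (α := Fˣ)
  have hord : orderOf g = Fintype.card Fˣ := orderOf_eq_card_of_forall_mem_zpowers hg |>.trans
    (Nat.card_eq_fintype_card)
  have hne : (1 : Fˣ) ≠ -1 := by
    intro h
    have h1 := hodd 1
    rw [← h] at h1
    rcases hb 1 with h2 | h2 <;> rw [h2] at h1 <;> norm_num at h1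
  have h2 : 2 ∣ Fintype.card Fˣ := by
    have h3 : orderOf (-1 : Fˣ) ∣ Fintype.card Fˣ := orderOf_dvd_card
    have h4 : orderOf (-1 : Fˣ) = 2 := orderOf_eq_prime (by simp) (Ne.symm hne)
    rwa [h4] at h3
  obtain ⟨n, hn⟩ := h2
  have hgn : g ^ n = -1 := by
    have h3 : g ^ n * g ^ n = 1 := by
      rw [← pow_add, ← two_mul, ← hn, ← hord, pow_orderOf_eq_one]
    have h4 : g ^ n ≠ 1 := by
      intro h
      have h5 := orderOf_dvd_of_pow_eq_one h
      rw [hord] at h5
      have := Nat.le_of_dvd (by omega) h5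
      omega
    have h5 : ((g ^ n : Fˣ) : F) * ((g ^ n : Fˣ) : F) = 1 := by
      rw [← Units.val_mul, h3, Units.val_one]
    rcases mul_self_eq_one_iff.1 h5 with h6 | h6
    · exact absurd (Units.ext h6) h4
    · apply Units.ext
      rw [h6]
      simp
  have hsmall : ∀ k : ℕ, 1 ≤ k → k ≤ 2 → g ^ k ≠ 1 ∧ g ^ k ≠ -1 := by
    intro k hk1 hk2
    refine ⟨?_, ?_⟩
    · intro h
      have h5 := orderOf_dvd_of_pow_eq_one h
      rw [hord] at h5
      have := Nat.le_of_dvd (by omega) h5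
      omega
    · intro h
      have h6 : g ^ (2 * k) = 1 := by
        rw [mul_comm, pow_mul, h]
        simp
      have h5 := orderOf_dvd_of_pow_eq_one h6
      rw [hord] at h5
      have := Nat.le_of_dvd (by omega) h5
      omega
  have hsum : ∀ f : Fˣ → ℤ, ∑ x, f x = ∑ i ∈ range (2 * n), f (g ^ i) := by
    intro f
    rw [← hn, ← hord, ← IsCyclic.image_range_orderOf hg, Finset.sum_image]
    intro i hi j hj hij
    rw [mem_coe, mem_range] at hi hj
    exact pow_injOn_Iio_orderOf hi hj hij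
  have hnega : ∀ i, b (g ^ (i + n)) = -b (g ^ i) := by
    intro i
    rw [pow_add, hgn, mul_neg, mul_one, hodd]
  have hS : ∀ k : ℕ, 1 ≤ k → k ≤ 2 → ∑ i ∈ range n, b (g ^ i) * b (g ^ (i + k)) = 0 := by
    intro k hk1 hk2
    have h5 := hR (g ^ k) (hsmall k hk1 hk2).1 (hsmall k hk1 hk2).2
    rw [hsum, two_mul, sum_range_add, ] at h5
    have h6 : ∀ i, b (g ^ k * g ^ (n + i)) * b (g ^ (n + i)) = b (g ^ i) * b (g ^ (i + k)) := by
      intro i
      rw [← pow_add, show k + (n + i) = (i + k) + n by ring, hnega, show n + i = i + n by ring, hnega]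
      ring
    have h7 : ∀ i, b (g ^ k * g ^ i) * b (g ^ i) = b (g ^ i) * b (g ^ (i + k)) := by
      intro i
      rw [← pow_add, add_comm k i]
      ring
    simp only [h6, h7] at h5
    linarith
  exact no_nega (fun i => b (g ^ i)) (fun i => hb _) n hnega (hS 1 le_rfl (by norm_num))
    (hS 2 (by norm_num) le_rfl)

/-- the multiplicities cannot have the autocorrelation `N, 2N, 0` -/
theorem no_mult (a : Fˣ → ℤ) (ha : ∀ x, 0 ≤ a x) (hN : 6 ≤ Fintype.card Fˣ)
    (hne : (1 : Fˣ) ≠ -1) (hs : ∑ x, a x = Fintype.card Fˣ)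
    (h1 : ∑ x, a x * a x = 2 * Fintype.card Fˣ) (hm : ∀ x, a (-x) * a x = 0)
    (hR : ∀ z : Fˣ, z ≠ 1 → z ≠ -1 → ∑ x, a (z * x) * a x = Fintype.card Fˣ) : False := by
  have hneg : ∀ f : Fˣ → ℤ, ∑ x, f (-x) = ∑ x, f x := fun f =>
    Equiv.sum_comp (Equiv.neg Fˣ) f
  have hτ : ∑ x, (a x + a (-x) - 2) ^ 2 = 0 := by
    have e : ∀ x, (a x + a (-x) - 2) ^ 2 = a x * a x + a (-x) * a (-x) + 2 * (a (-x) * a x)
        - 4 * a x - 4 * a (-x) + 4 := fun x => by ring
    simp only [e, hm]
    rw [sum_add_distrib, sum_sub_distrib, sum_sub_distrib, sum_add_distrib, sum_add_distrib,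
      hneg (fun x => a x * a x), ← mul_sum, ← mul_sum, ← mul_sum, hneg a, h1, hs]
    simp only [mul_zero, sum_const_zero, sum_const, card_univ, nsmul_eq_mul]
    ring
  have hτ' : ∀ x, a x + a (-x) = 2 := by
    intro x
    have h2 := (sum_eq_zero_iff_of_nonneg (fun x _ => sq_nonneg (a x + a (-x) - 2))).1 hτ x (mem_univ x)
    have := pow_eq_zero_iff (two_ne_zero) |>.1 h2
    linarith
  refine no_odd (fun x => a x - 1) ?_ ?_ hN ?_
  · intro x
    have h2 := hm x
    have h3 := hτ' x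
    rcases mul_eq_zero.1 h2 with h4 | h4
    · left
      show a x - 1 = 1
      linarith
    · right
      show a x - 1 = -1
      linarith
  · intro x
    show a (-x) - 1 = -(a x - 1)
    linarith [hτ' x]
  · intro z hz hz'
    have e : ∀ x, (a (z * x) - 1) * (a x - 1) = a (z * x) * a x - a (z * x) - a x + 1 := fun x => by
      ring
    simp only [e]
    have hsh : ∑ x, a (z * x) = ∑ x, a x := Equiv.sum_comp (Equiv.mulLeft z) a
    rw [sum_add_distrib, sum_sub_distrib, sum_sub_distrib, hR z hz hz', hsh, hs]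
    simp

end Pool.Agent.R524.AO
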