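import Pool.Agent.R524.AO.Core
import Pool.Agent.R524.AO.Seq

/-!
# Symmetric matrices with all two by two minors nonzero and zero diagonal: double counting
-/

set_option autoImplicit false

namespace Pool.Agent.R524.AO

open Finset

variable {F I : Type} [Field F] [Fintype F] [DecidableEq F] [Fintype I] [DecidableEq I]
variable {m : I → I → F}

/-- in a column the ratio `y` occurs `card F - 3` times -/
theorem col_count (h : Good m) (h0 : ∀ i, m i i = 0) {y : F} (hy0 : y ≠ 0) (hy1 : y ≠ 1) (j : I) :
    (univ.filter (fun p : I × I => m p.1 j = y * m p.2 j ∧ m p.2 j ≠ 0)).card =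
      Fintype.card F - 3 := by
  have he : miss_val h j ≠ 0 := fun hh => miss_ne h j j (by rw [h0, hh])
  have hT : ((((univ : Finset F).erase 0).erase (miss_val h j)).erase (y⁻¹ * miss_val h j)).card =
      Fintype.card F - 3 := by
    rw [card_erase_of_mem, card_erase_of_mem, card_erase_of_mem (mem_univ _), card_univ]
    · omega
    · exact mem_erase.2 ⟨he, mem_univ _⟩
    · rw [mem_erase, mem_erase]
      refine ⟨?_, mul_ne_zero (inv_ne_zero hy0) he, mem_univ _⟩
      intro hh
      rw [inv_mul_eq_iff_eq_mul₀ hy0] at hh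
      exact hy1 (mul_right_cancel₀ he (by rw [← hh, one_mul]))
  rw [← hT]
  refine Finset.card_bij (fun p _ => m p.2 j) ?_ ?_ ?_
  · rintro ⟨i, k⟩ hp
    rw [mem_filter] at hp
    obtain ⟨-, hp1, hp2⟩ := hp
    simp only at hp1 hp2 ⊢
    rw [mem_erase, mem_erase, mem_erase]
    refine ⟨?_, ?_, hp2, mem_univ _⟩
    · intro hh
      rw [hh, mul_inv_cancel_left₀ hy0, h.symm i j] at hp1
      exact miss_ne h j i hp1
    · rw [h.symm k j]
      exact miss_ne h j k
  · rintro ⟨i, k⟩ hp ⟨i', k'⟩ hp' hkk
    rw [mem_filter] at hp hp'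
    simp only at hp hp' hkk
    have hk : k = k' := by
      rw [h.symm k j, h.symm k' j] at hkk
      exact h.inj j hkk
    subst hk
    have hi : i = i' := by
      have h1 : m i j = m i' j := by rw [hp.2.1, hp'.2.1]
      rw [h.symm i j, h.symm i' j] at h1
      exact h.inj j h1
    rw [hi]
  · intro x hx
    rw [mem_erase, mem_erase, mem_erase] at hx
    obtain ⟨hx1, hx2, hx3, -⟩ := hx
    obtain ⟨k, hk⟩ := exists_of_ne h j hx2
    have hyx : y * x ≠ miss_val h j := by
      intro hh
      apply hx1
      rw [← hh, inv_mul_cancel_left₀ hy0]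
    obtain ⟨i, hi⟩ := exists_of_ne h j hyx
    refine ⟨(i, k), ?_, ?_⟩
    · rw [mem_filter]
      refine ⟨mem_univ _, ?_, ?_⟩
      · show m i j = y * m k j
        rw [h.symm i j, h.symm k j, hi, hk]
      · show m k j ≠ 0
        rw [h.symm k j, hk]
        exact hx3
    · show m k j = x
      rw [h.symm k j, hk]

/-- the ratio `y` of two rows -/
theorem pair_count (h : Good m) (h0 : ∀ i, m i i = 0) {y : F} (hy0 : y ≠ 0) (hy1 : y ≠ 1) (i k : I) :
    (univ.filter (fun j : I => m i j = y * m k j ∧ m k j ≠ 0)).card =
      if i ≠ k ∧ miss_val h i ≠ -y * miss_val h k then 1 else 0 := by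
  by_cases hik : i = k
  · subst hik
    rw [if_neg (by simp), card_eq_zero, filter_eq_empty_iff]
    rintro j - ⟨h1, h2⟩
    exact hy1 (mul_right_cancel₀ h2 (by rw [← h1, one_mul]))
  · have hek : miss_val h k ≠ 0 := fun hh => miss_ne h k k (by rw [h0, hh])
    obtain ⟨hc1, hc⟩ := ratio h hik (h0 i) (h0 k)
    have hiff : miss_val h i ≠ -y * miss_val h k ↔ y ≠ -(miss_val h i / miss_val h k) := by
      rw [not_iff_not, eq_neg_iff_add_eq_zero, ← sub_eq_zero]
      constructor
      · intro h1
        field_simp
        linear_combination h1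
      · intro h1
        field_simp at h1
        linear_combination h1
    have hk : ∀ j, j ≠ k → m k j ≠ 0 := fun j hj => by
      rw [← h0 k]
      exact h.row k j k hj
    by_cases hy : miss_val h i ≠ -y * miss_val h k
    · rw [if_pos ⟨hik, hy⟩, card_eq_one]
      have hmem : y ∈ ((univ.erase i).erase k).image (fun j => m i j / m k j) := by
        rw [hc, mem_erase, mem_erase, mem_erase]
        exact ⟨hiff.1 hy, hy1, hy0, mem_univ _⟩
      obtain ⟨j, hj, hjy⟩ := mem_image.1 hmem
      rw [mem_erase, mem_erase] at hj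
      refine ⟨j, ?_⟩
      ext j'
      rw [mem_filter, mem_singleton]
      have hj2 : m i j = y * m k j := by
        rw [← hjy, div_mul_cancel₀ _ (hk j hj.1)]
      constructor
      · rintro ⟨-, h1, h2⟩
        by_contra hne
        apply h.det i k j j' hik (Ne.symm hne)
        rw [hj2, h1]
        ring
      · rintro rfl
        exact ⟨mem_univ _, hj2, hk j' hj.1⟩
    · rw [if_neg (fun hh => hy hh.2), card_eq_zero, filter_eq_empty_iff]
      rintro j - ⟨h1, h2⟩
      rw [hiff] at hy
      have hjk : j ≠ k := by
        rintro rfl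
        exact h2 (h0 _)
      have hji : j ≠ i := by
        rintro rfl
        rw [h0, eq_comm, mul_eq_zero] at h1
        rcases h1 with h1 | h1
        · exact hy0 h1
        · exact h2 h1
      have hmem : y ∈ ((univ.erase i).erase k).image (fun j => m i j / m k j) := by
        rw [mem_image]
        refine ⟨j, ?_, ?_⟩
        · rw [mem_erase, mem_erase]
          exact ⟨hjk, hji, mem_univ _⟩
        · show m i j / m k j = y
          rw [h1, mul_div_cancel_right₀ _ h2]
      rw [hc, mem_erase] at hmem
      exact hy hmem.1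

/-- the number of pairs of rows whose missing values have the ratio `z ≠ 0, -1` -/
theorem ratio_count (h : Good m) (h0 : ∀ i, m i i = 0) (hF : 3 ≤ Fintype.card F) {z : F}
    (hz0 : z ≠ 0) (hz1 : z ≠ -1) :
    (univ.filter (fun p : I × I => p.1 ≠ p.2 ∧ miss_val h p.1 = z * miss_val h p.2)).card =
      Fintype.card I := by
  have hy0 : -z ≠ 0 := neg_ne_zero.2 hz0
  have hy1 : -z ≠ 1 := fun hh => hz1 (by rw [← hh, neg_neg])
  -- the double count
  have e1 : ∑ p : I × I, (univ.filter (fun j : I => m p.1 j = -z * m p.2 j ∧ m p.2 j ≠ 0)).card =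
      ∑ j : I, (univ.filter (fun p : I × I => m p.1 j = -z * m p.2 j ∧ m p.2 j ≠ 0)).card := by
    simp only [card_filter]
    exact Finset.sum_comm
  simp only [col_count h h0 hy0 hy1, pair_count h h0 hy0 hy1, neg_neg] at e1
  rw [sum_const, card_univ, smul_eq_mul, ← card_filter] at e1
  have e2 : (univ.filter (fun p : I × I => p.1 ≠ p.2 ∧ miss_val h p.1 ≠ z * miss_val h p.2)).card +
      (univ.filter (fun p : I × I => p.1 ≠ p.2 ∧ miss_val h p.1 = z * miss_val h p.2)).card =
      (univ.filter (fun p : I × I => p.1 ≠ p.2)).card := by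
    rw [← card_union_of_disjoint]
    · congr 1
      ext p
      rw [mem_union, mem_filter, mem_filter, mem_filter]
      constructor
      · rintro (⟨h1, h2, -⟩ | ⟨h1, h2, -⟩) <;> exact ⟨h1, h2⟩
      · rintro ⟨h1, h2⟩
        by_cases h3 : miss_val h p.1 = z * miss_val h p.2
        · exact Or.inr ⟨h1, h2, h3⟩
        · exact Or.inl ⟨h1, h2, h3⟩
    · rw [Finset.disjoint_left]
      intro p hp hp'
      rw [mem_filter] at hp hp'
      exact hp.2.2 hp'.2.2
  have e3 : (univ.filter (fun p : I × I => p.1 ≠ p.2)).card =
      Fintype.card I * (Fintype.card I - 1) := by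
    have h1 : (univ.filter (fun p : I × I => p.1 ≠ p.2)) = (univ : Finset I).offDiag := by
      ext p
      rw [mem_filter, mem_offDiag]
      simp
    rw [h1, offDiag_card, card_univ, Nat.mul_sub_one]
  rw [e1, e3] at e2
  have hI := h.card
  have e4 : Fintype.card F - 3 + 1 = Fintype.card I - 1 := by omega
  rw [← e4, Nat.mul_add, mul_one] at e2
  omega

/-- no such matrix with zero diagonal if `card F ≥ 7` is odd -/
theorem no_zero_diag (h : Good m) (h0 : ∀ i, m i i = 0) (hF : 7 ≤ Fintype.card F)
    (hodd : (1 : F) ≠ -1) : False := by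
  classical
  have he : ∀ i, miss_val h i ≠ 0 := fun i hh => miss_ne h i i (by rw [h0, hh])
  set E : I → Fˣ := fun i => Units.mk0 (miss_val h i) (he i) with hE
  set a : Fˣ → ℤ := fun x => ∑ i, if E i = x then 1 else 0 with ha
  have hcU : Fintype.card Fˣ = Fintype.card I := by
    rw [Fintype.card_units]
    have := h.card
    omega
  have hR : ∀ z : Fˣ, ∑ x, a (z * x) * a x =
      ((univ.filter (fun p : I × I => E p.1 = z * E p.2)).card : ℤ) := by
    intro z
    have e1 : ∀ x, a (z * x) * a x = ∑ p : I × I,
        (if E p.1 = z * x then (1 : ℤ) else 0) * (if E p.2 = x then 1 else 0) := by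
      intro x
      rw [ha, Fintype.sum_mul_sum, ← Fintype.sum_prod_type']
    simp only [e1]
    rw [Finset.sum_comm, card_filter, Nat.cast_sum]
    refine sum_congr rfl fun p _ => ?_
    rw [Finset.sum_eq_single (E p.2)]
    · simp
    · intro x _ hx
      rw [if_neg (Ne.symm hx), mul_zero]
    · intro hh
      exact absurd (mem_univ _) hh
  have hEq : ∀ (z : Fˣ) (i k : I), E i = z * E k ↔ miss_val h i = (z : F) * miss_val h k := by
    intro z i k
    rw [hE, Units.ext_iff]
    simp
  have hsplit : ∀ z : Fˣ, (univ.filter (fun p : I × I => E p.1 = z * E p.2)).card =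
      (univ.filter (fun p : I × I => p.1 ≠ p.2 ∧ miss_val h p.1 = (z : F) * miss_val h p.2)).card +
      (if z = 1 then Fintype.card I else 0) := by
    intro z
    have e1 : (univ.filter (fun p : I × I => E p.1 = z * E p.2)) =
        (univ.filter (fun p : I × I => p.1 ≠ p.2 ∧ miss_val h p.1 = (z : F) * miss_val h p.2)) ∪
        (univ.filter (fun p : I × I => p.1 = p.2 ∧ E p.1 = z * E p.2)) := by
      ext p
      rw [mem_union, mem_filter, mem_filter, mem_filter, ← hEq]
      by_cases h1 : p.1 = p.2 <;> simp [h1]
    rw [e1, card_union_of_disjoint]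
    · congr 1
      by_cases hz : z = 1
      · rw [if_pos hz, ← card_univ, ← Finset.card_image_of_injective (univ : Finset I)
          (f := fun i => (i, i)) (fun i j hij => (Prod.mk.inj hij).1)]
        congr 1
        ext p
        rw [mem_filter, mem_image]
        constructor
        · rintro ⟨-, h1, -⟩
          exact ⟨p.1, mem_univ _, Prod.ext rfl h1⟩
        · rintro ⟨i, -, rfl⟩
          refine ⟨mem_univ _, rfl, ?_⟩
          rw [hz, one_mul]
      · rw [if_neg hz, card_eq_zero, filter_eq_empty_iff]
        rintro p - ⟨h1, h2⟩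
        apply hz
        rw [h1] at h2
        exact (mul_eq_right.1 h2.symm)
    · rw [Finset.disjoint_left]
      intro p hp hp'
      rw [mem_filter] at hp hp'
      exact hp.2.1 hp'.2.1
  have hne1 : (1 : Fˣ) ≠ -1 := by
    intro hh
    apply hodd
    have := congrArg (fun u : Fˣ => (u : F)) hh
    simpa using this
  have ha0 : ∀ x, 0 ≤ a x := fun x => sum_nonneg fun i _ => by split_ifs <;> norm_num
  refine no_mult a ha0 (by rw [hcU]; have := h.card; omega) hne1 ?_ ?_ ?_ ?_
  · rw [ha, Finset.sum_comm]
    simp [hcU]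
  · have h1 := hR 1
    simp only [one_mul] at h1
    have h2 := hsplit 1
    simp only [one_mul] at h2
    rw [h1, h2, if_pos trivial, Units.val_one]
    have h3 := ratio_count h h0 (by omega) (z := 1) one_ne_zero hodd
    rw [h3, hcU]
    push_cast
    ring
  · -- no opposite missing values
    have h1 : ∀ x, 0 ≤ a (-x) * a x := fun x => mul_nonneg (ha0 _) (ha0 _)
    have h2 : ∑ x, a (-x) * a x = 0 := by
      have h3 := hR (-1)
      simp only [neg_mul, one_mul] at h3
      rw [h3]
      norm_cast
      rw [card_eq_zero, filter_eq_empty_iff]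
      rintro ⟨i, k⟩ - h4
      simp only at h4
      have h5 : miss_val h i = -miss_val h k := by
        have := congrArg (fun u : Fˣ => (u : F)) h4
        simpa [hE] using this
      by_cases hik : i = k
      · subst hik
        have h6 : (1 : F) = -1 := by
          have h7 := he i
          have h8 : miss_val h i * 1 = miss_val h i * (-1) := by
            rw [mul_one, mul_neg, mul_one]
            linear_combination h5
          exact mul_left_cancel₀ h7 h8
        exact hodd h6
      · have h6 := (ratio h hik (h0 i) (h0 k)).1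
        apply h6
        rw [h5, neg_div, neg_neg, div_self (he k)]
    intro x
    exact (sum_eq_zero_iff_of_nonneg (fun x _ => h1 x)).1 h2 x (mem_univ x)
  · intro z hz hz'
    rw [hR z, hsplit z, if_neg hz, add_zero, ratio_count h h0 (by omega) z.ne_zero ?_, hcU]
    intro hh
    apply hz'
    apply Units.ext
    rw [hh]
    simp

end Pool.Agent.R524.AO
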