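import Pool.Agent.R524.AO.Count

/-!
# Symmetric matrices with all two by two minors nonzero, at most one nonzero diagonal entry
-/

set_option autoImplicit false

namespace Pool.Agent.R524.AO

open Finset

variable {F I : Type} [Field F] [Fintype F] [DecidableEq F] [Fintype I] [DecidableEq I]
variable {m : I → I → F}

theorem no_good (h : Good m) (k : I) (h0 : ∀ i, i ≠ k → m i i = 0) (hF : 7 ≤ Fintype.card F)
    (hodd : (1 : F) ≠ -1) : False := by
  by_cases hk : m k k = 0
  · refine no_zero_diag h (fun i => ?_) hF hodd
    by_cases hi : i = k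
    · rw [hi, hk]
    · exact h0 i hi
  · have hkj : ∀ j, m k j ≠ 0 := by
      intro j
      by_cases hj : j = k
      · rw [hj]
        exact hk
      · intro hh
        apply h.row j j k hj
        rw [h0 j hj, h.symm j k, hh]
    have hmk : miss_val h k = 0 := by
      by_contra hne
      obtain ⟨j, hj⟩ := exists_of_ne h k (x := 0) (Ne.symm hne)
      exact hkj j hj
    have hcard : ({0, m k k, -m k k} : Finset F).card < (univ : Finset F).card := by
      refine lt_of_le_of_lt Finset.card_le_three ?_
      rw [card_univ]
      omega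
    obtain ⟨x, -, hx⟩ := Finset.exists_mem_notMem_of_card_lt_card hcard
    simp only [mem_insert, mem_singleton, not_or] at hx
    obtain ⟨hx0, hx1, hx2⟩ := hx
    obtain ⟨j, hj⟩ := exists_of_ne h k (x := x) (by rw [hmk]; exact hx0)
    obtain ⟨j', hj'⟩ := exists_of_ne h k (x := -x) (by rw [hmk]; exact neg_ne_zero.2 hx0)
    have hjk : j ≠ k := by
      rintro rfl
      exact hx1 hj.symm
    have hjk' : j' ≠ k := by
      rintro rfl
      exact hx2 (by rw [hj', neg_neg])
    have hjj : j ≠ j' := by
      rintro rfl
      rw [hj] at hj'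
      apply hodd
      have h8 : x * 1 = x * (-1) := by
        rw [mul_one, mul_neg, mul_one]
        exact hj'
      exact mul_left_cancel₀ hx0 h8
    have e1 := no_zero_row h hjk (h0 j hjk) hkj
    have e2 := no_zero_row h hjk' (h0 j' hjk') hkj
    rw [hj] at e1
    rw [hj', neg_neg] at e2
    apply (ratio h hjj (h0 j hjk) (h0 j' hjk')).1
    rw [e1, e2, neg_div, neg_neg, div_self hx0]

end Pool.Agent.R524.AO
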